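import Pool.Agent.K6.H39.TR.Main

/-!
# MP_c15239_al: factorisable systems of bounded rank and the transfinite radical

`H39.TR.Obj R`: right `R`-modules of finite length; `rad`, `prod`, `radPow`, `transRad`: the
radical of `mod-R`, products of classes of maps, the transfinite powers of the radical and their
intersection; `FactSys R n`: factorisable systems with tuples of length `n`; `RankGE k f`: the
identity of a direct sum of `k` nonzero modules factors through `f`; `WidthLE N A`: `A` is a
direct sum of at most `N` indecomposable modules.

Proof. Restrict the system to the copy of `ℚ≥0`.  On an interval on which the maximal rank `k` is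
attained by one map `f_{αβ}`, the idempotents `∑ i, f_{αγ} x_i y_i f_{γβ}` of `M_γ` commute with
the maps of the system; their kernels form a factorisable system, and a map of it outside the
radical would (Fitting) give a map of rank `k + 1` in the interval.
-/

set_option autoImplicit false

universe u w

namespace Pool.Agent.Results.MP_c15239_al.BoundedRank

open H39.TR

/-- `S` has bounded rank along some copy `φ(ℚ≥0)` of `ℚ≥0` in the index set -/
def BoundedAlong {R : Type u} [Ring R] {n : ℕ} (S : FactSys R n) : Prop :=
  ∃ (N : ℕ) (φ : ℚ≥0 → ℚ≥0) (hφ : StrictMono φ),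
    ∀ p q (h : p < q), ¬ RankGE (N + 1) (S.f (φ p) (φ q) (hφ h))

/-- Let `R` be any ring (artin algebras are a special case; `mod-R` = right modules of finite
length) and `n` a natural number.
(1) If `S` is a factorisable system in `mod-R` whose ranks are bounded along some copy of `ℚ≥0`,
then there is a factorisable system lying in the radical and in the transfinite radical, and the
transfinite radical is not zero.
(2) This applies if, for some `N`, the modules `M_{φ(p)}` are direct sums of at most `N`
indecomposable modules, for some strictly increasing `φ : ℚ≥0 → ℚ≥0`.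
(3) There is a factorisable system in the radical if and only if there is a factorisable system
of bounded rank along some copy of `ℚ≥0`. -/
theorem result (R : Type u) [Ring R] (n : ℕ) :
    (∀ S : FactSys R n, BoundedAlong S →
      (∃ S' : FactSys R n, S'.LiesIn (rad R) ∧ S'.LiesIn (transRad.{u, w} R)) ∧
      ∃ (A B : Obj R) (f : Mor A B), f ≠ 0 ∧ f ∈ transRad.{u, w} R A B) ∧
    (∀ (S : FactSys R n) (N : ℕ) (φ : ℚ≥0 → ℚ≥0), StrictMono φ →
      (∀ p, WidthLE N (S.M (φ p))) → BoundedAlong S) ∧
    ((∃ S : FactSys R n, S.LiesIn (rad R)) ↔ ∃ S : FactSys R n, BoundedAlong S) := by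
  refine ⟨?_, ?_, ?_, ?_⟩
  · rintro S ⟨N, φ, hφ, hN⟩
    obtain ⟨S', hS'⟩ := of_bounded_sub S N φ hφ hN
    have h2 : S'.LiesIn (transRad.{u, w} R) := fun γ δ h ν => (liesIn_radPow S' hS' ν).1 γ δ h
    exact ⟨⟨S', hS', h2⟩, _, _, _, exists_ne_zero S', h2 _ _ _⟩
  · intro S N φ hφ hw
    exact ⟨N, φ, hφ, fun p q h => not_rankGE_of_width _ (hw p)⟩
  · rintro ⟨S, hS⟩
    exact ⟨S, 0, id, strictMono_id, fun p q h => not_rankGE_of_rad _ (hS p q h)⟩
  · rintro ⟨S, N, φ, hφ, hN⟩
    exact of_bounded_sub S N φ hφ hN

end Pool.Agent.Results.MP_c15239_al.BoundedRank
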